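import Mathlib
import Pool.Agent.Q147.K1Emb
import Pool.Agent.Q147.K1Space

/-!
# MP_b12a75_gt : a `K₁*`-embedded subspace which is not `K₁`-embedded

`FunClosed`, `Add1`, `K1`, `Bdd`, `K1Embedded`, `K1StarEmbedded` are defined in
`Pool.Agent.Q147.K1Emb`, exactly as in the problem.
-/

namespace Pool.Agent.Results.MP_b12a75_gt.BoundedNotUnbounded

open Set TopologicalSpace Pool.Agent.Q147.K1Emb Pool.Agent.Q147.K1Space

/-- There are a topological space `X` (even Hausdorff with a base of clopen sets) and a (countable)
subspace `E` of `X` such that `E` is `K₁*`-embedded in `X` and `E` is not `K₁`-embedded in `X`. -/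
theorem result : ∃ (X : Type) (_ : TopologicalSpace X) (E : Set X),
    T2Space X ∧ IsTopologicalBasis {s : Set X | IsClopen s} ∧ E.Countable ∧
      K1StarEmbedded E ∧ ¬ K1Embedded E :=
  ⟨X, inferInstance, E, inferInstance, basis, countable_E, k1StarEmbedded, not_k1Embedded⟩

end Pool.Agent.Results.MP_b12a75_gt.BoundedNotUnbounded
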